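import Pool.Agent.H691.MM.Grid
import Pool.Graph.R_seed8.W303.TA_I4
import Pool.Graph.R_seed8.W509.TA_I5

/-!
# Max-min area triangulations: types and signals (M1, M2, M3)
-/

set_option autoImplicit false

namespace Pool.Agent.H691.MM

open Pool.Agent.W982.TA Pool.Agent.H691.Geo Pool.Agent.NPC

theorem m_ty_lt (φ : List Cl) (i j : ℕ) : ty φ i j < 8 := by
  unfold ty
  split_ifs <;> omega

theorem m_row (φ : List Cl) (i : ℕ) (h0 : i ≠ 0) (h1 : i ≠ nR φ - 1) : rowR φ i 23 = true := by
  unfold rowR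
  rw [if_neg h0, if_neg h1]
  rfl

theorem m_ty_mid (φ : List Cl) (i j : ℕ) (h0 : i ≠ 0) (h1 : i ≠ nR φ - 1) : ty φ i j < 4 := by
  unfold ty
  rw [if_neg h0, if_neg h0, if_neg h1, if_neg h1]
  split_ifs <;> omega

theorem m_hsig_mid (φ : List Cl) (τ : ℕ → Bool) (i j : ℕ) (hi : i < nR φ) (h0 : i ≠ 0)
    (h1 : i ≠ nR φ - 1) : hsig (ty φ i j) (st φ τ i j) = lval τ (litRow i) := by
  have h := i4_G φ τ i j 23 hi (m_row φ i h0 h1)
  have h2 := m_ty_mid φ i j h0 h1
  have h3 : rowG φ τ i 23 = lval τ (litRow i) := by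
    unfold rowG
    rw [if_neg h0, if_neg h1, if_neg (by norm_num)]
  rw [h3] at h
  rw [← h]
  have h6 : ¬ 6 ≤ ty φ i j := by omega
  have h4 : ¬ 4 ≤ ty φ i j := by omega
  unfold hsig hs
  rw [if_neg h6, if_neg h4, if_neg h6, if_neg (by norm_num : ¬ 41 ≤ 23)]

theorem m_hsig_zero (φ : List Cl) (τ : ℕ → Bool) (j : ℕ) :
    hsig (ty φ 0 j) (st φ τ 0 j) = false := by
  have ht : ty φ 0 j = 5 ∨ ty φ 0 j = 4 := by
    unfold ty
    rw [if_pos rfl, if_pos rfl]
    split_ifs <;> simp
  unfold hsig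
  rw [if_neg (by omega), if_pos (by omega)]

theorem m_hsig_last (φ : List Cl) (τ : ℕ → Bool) (i j : ℕ) (h0 : i ≠ 0) (h1 : i = nR φ - 1) :
    hsig (ty φ i j) (st φ τ i j) = true := by
  have ht : ty φ i j = 7 ∨ ty φ i j = 6 := by
    unfold ty
    rw [if_neg h0, if_neg h0, if_pos h1, if_pos h1]
    split_ifs <;> simp
  unfold hsig
  rw [if_pos (by omega)]

theorem m_hasL (φ : List Cl) (i j : ℕ) : hasL (ty φ i j) = false ↔ j = 0 := by
  unfold ty
  split_ifs <;> simp_all [hasL]

theorem m1 : TaskM1 := by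
  intro φ τ i hi j hj
  constructor
  · have h := (m_hasL φ i (j + 1)).not.2 (Nat.succ_ne_zero j)
    simpa using h
  · by_cases h0 : i = 0
    · subst h0
      rw [m_hsig_zero, m_hsig_zero]
    · by_cases h1 : i = nR φ - 1
      · rw [m_hsig_last φ τ i j h0 h1, m_hsig_last φ τ i (j + 1) h0 h1]
      · rw [m_hsig_mid φ τ i j hi h0 h1, m_hsig_mid φ τ i (j + 1) hi h0 h1]

theorem m_vtop (t s : ℕ) : vtop t s = vt t s 25 := by
  unfold vtop vt
  simp

theorem m_vtop' (t s : ℕ) (h : t ≠ 2) : vtop t s = vt t s 15 := by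
  unfold vtop vt
  simp [h]

theorem m_vbot (t s : ℕ) : vbot t s = vb t s 25 := by
  unfold vbot vb
  simp

theorem m_vbot' (t s : ℕ) (h : t ≠ 3) : vbot t s = vb t s 15 := by
  unfold vbot vb
  simp [h]

theorem m_port (φ : List Cl) (i j : ℕ) (hi : i + 1 < nR φ) :
    topx (ty φ i j) = botx (ty φ (i + 1) j) := by
  have hn : nR φ = 6 * φ.length + 2 := rfl
  have h1 : i ≠ nR φ - 1 := by omega
  by_cases hj : j = 0
  · subst hj
    rw [i5_ty0, i5_ty0, if_neg h1, if_neg (Nat.succ_ne_zero i)]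
    by_cases h0 : i = 0
    · subst h0
      rw [if_pos rfl]
      split_ifs <;> simp_all [topx, botx]
    · rw [if_neg h0]
      by_cases h2 : i % 2 = 1
      · rw [if_pos h2, if_neg (by omega), if_neg (by omega)]
        simp [topx, botx]
      · rw [if_neg h2]
        by_cases h3 : i + 1 = nR φ - 1
        · rw [if_pos h3]
          simp [topx, botx]
        · rw [if_neg h3, if_pos (by omega)]
          simp [topx, botx]
  · have ht : topx (ty φ i j) = some 10 := by
      unfold ty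
      rw [if_neg hj]
      split_ifs <;> simp [topx]
    have hb : botx (ty φ (i + 1) j) = some 10 := by
      unfold ty
      rw [if_neg hj, if_neg (Nat.succ_ne_zero i)]
      split_ifs <;> simp [botx]
    rw [ht, hb]

theorem m2 : TaskM2 := by
  intro φ τ hB hS i hi j hj
  refine ⟨m_port φ i j hi, fun hne => ?_⟩
  have hn : nR φ = 6 * φ.length + 2 := rfl
  by_cases hj0 : j = 0
  · obtain ⟨_, h2⟩ := i5 φ τ hB hS i hi j hj 25
    rw [m_vtop, m_vbot]
    apply h2
    subst hj0
    rw [i5_ty0] at hne ⊢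
    split_ifs at hne ⊢ <;> simp_all [topx, vcT]
  · obtain ⟨_, h2⟩ := i5 φ τ hB hS i hi j hj 15
    have ht2 : ty φ i j ≠ 2 := by
      unfold ty
      rw [if_neg hj0]
      split_ifs <;> omega
    have ht3 : ty φ (i + 1) j ≠ 3 := by
      unfold ty
      rw [if_neg hj0]
      split_ifs <;> omega
    rw [m_vtop' _ _ ht2, m_vbot' _ _ ht3]
    apply h2
    have h1 : i ≠ nR φ - 1 := by omega
    unfold ty
    rw [if_neg hj0]
    split_ifs <;> simp [vcT]

theorem m_toNat (b : Bool) : b.toNat ≤ 1 := by cases b <;> simp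

theorem m3 : TaskM3 := by
  intro φ τ i hi j hj
  have hn : nR φ = 6 * φ.length + 2 := rfl
  have hst : st φ τ i j ≤ 3 ∧ (j = 0 → st φ τ i j ≤ 1) ∧
      ((i = 0 ∨ i = nR φ - 1) → st φ τ i j = 0) := by
    unfold Pool.Agent.W982.TA.st
    split_ifs with h1 h2
    · exact ⟨by omega, fun _ => by omega, fun _ => rfl⟩
    · have := m_toNat (τ ((i - 1) / 2))
      exact ⟨by omega, fun _ => this, fun h => absurd h h1⟩
    · have := m_toNat (lval τ (litRow i))
      have := m_toNat (bsig φ τ i j)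
      exact ⟨by omega, fun h => absurd h h2, fun h => absurd h h1⟩
  obtain ⟨s1, s2, s3⟩ := hst
  refine ⟨m_ty_lt φ i j, by omega, ?_, ?_, m_hasL φ i j, ?_, ?_⟩
  · intro h
    by_cases hj0 : j = 0
    · exact s2 hj0
    · have : i = 0 ∨ i = nR φ - 1 := by
        by_contra hc
        unfold ty at h
        rw [if_neg hj0, if_neg (by omega), if_neg (by omega)] at h
        split_ifs at h <;> omega
      rw [s3 this]
      omega
  · intro h
    apply s3
    by_contra hc
    have := m_ty_mid φ i j (by omega) (by omega)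
    omega
  · intro h
    by_contra hc
    have h0 : i = 0 := by omega
    subst h0
    apply h
    unfold ty
    rw [if_pos rfl, if_pos rfl]
    split_ifs <;> simp [botx]
  · intro h
    by_contra hc
    have h0 : i = nR φ - 1 := by omega
    have h1 : i ≠ 0 := by omega
    apply h
    unfold ty
    rw [if_neg h1, if_neg h1, if_pos h0, if_pos h0]
    split_ifs <;> simp [topx]

end Pool.Agent.H691.MM
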